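import Pool.Agent.N64.AF.J

/-!
# Products of pointed objects in a monoidal preadditive category: definitions
-/

set_option autoImplicit false

open CategoryTheory MonoidalCategory Module

namespace Pool.Agent.U724.BL

universe v u

variable (C : Type u) [Category.{v} C] [MonoidalCategory C]

/-- An object of which the unit object is a direct summand, with the maps which show this. For the
motive of a variety `X`: the map to the point, and a zero-cycle of degree one. -/
structure Pointed where
  /-- the object -/
  obj : C
  /-- the base point -/
  pt : 𝟙_ C ⟶ obj
  /-- the map to the point -/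
  aug : obj ⟶ 𝟙_ C
  pt_aug : pt ≫ aug = 𝟙 (𝟙_ C)

variable {C}

/-- The projector of `X` to the complement of the unit object. -/
def Pointed.red [Preadditive C] (X : Pointed C) : X.obj ⟶ X.obj := 𝟙 _ - X.aug ≫ X.pt

/-- The tensor product of a list of objects. -/
def prodL : List (Pointed C) → C
  | [] => 𝟙_ C
  | X :: L => prodL L ⊗ X.obj

/-- The tensor product of the projectors to the complements of the unit object. -/
def redL [Preadditive C] : ∀ L : List (Pointed C), prodL L ⟶ prodL L
  | [] => 𝟙 _
  | X :: L => redL L ⊗ₘ X.red

/-- The power `X ^ n`. -/
abbrev powL (X : Pointed C) (n : ℕ) : List (Pointed C) := List.replicate n X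

section Dims

universe t x

variable {Λ : Type t} [Field Λ] {M D : C ⥤ ModuleCat.{x} Λ}

/-- The dimension of the kernel of `r` on the product of the list `L`, a number or infinity. -/
noncomputable def kerL (r : M ⟶ D) (L : List (Pointed C)) : ℕ∞ :=
  Pool.Agent.N64.AF.dimE Λ (LinearMap.ker (r.app (prodL L)).hom)

/-- The dimension of the cokernel of `r` on the product of the list `L`, a number or infinity. -/
noncomputable def cokerL (r : M ⟶ D) (L : List (Pointed C)) : ℕ∞ :=
  Pool.Agent.N64.AF.dimE Λ (D.obj (prodL L) ⧸ LinearMap.range (r.app (prodL L)).hom)

end Dims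

end Pool.Agent.U724.BL
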