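import Pool.Agent.U724.BL.Sum

/-!
# Kernels and cokernels of natural transformations on products of pointed objects
-/

set_option autoImplicit false
set_option linter.unusedSectionVars false

open CategoryTheory MonoidalCategory Module Filter
open Pool.Agent.N64.AF Pool.Agent.U724.NT

namespace Pool.Agent.U724.BL

universe v u t x

lemma choose_mono' {n a b : ℕ} (hab : a ≤ b) (hb : b ≤ n / 2) : n.choose a ≤ n.choose b := by
  induction b, hab using Nat.le_induction with
  | base => exact le_rfl
  | succ b _ ih =>
    exact (ih (by omega)).trans (Nat.choose_le_succ_of_lt_half_left (by omega))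

lemma choose_le {n a k : ℕ} (h1 : a ≤ k) (h2 : k + a ≤ n) : n.choose a ≤ n.choose k := by
  by_cases hk : k ≤ n / 2
  · exact choose_mono' h1 hk
  · have h3 : n.choose (n - k) = n.choose k := Nat.choose_symm (by omega)
    rw [← h3]
    exact choose_mono' (by omega) (by omega)

lemma sum_replicate {α : Type*} (X : α) (n : ℕ) : ∀ g : List α → ℕ∞,
    ((List.sublists' (List.replicate n X)).map g).sum =
      ∑ k ∈ Finset.range (n + 1), (n.choose k : ℕ∞) * g (List.replicate k X) := by
  induction n with
  | zero =>
    intro g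
    simp
  | succ n ih =>
    intro g
    rw [List.replicate_succ, List.sublists'_cons, List.map_append, List.sum_append, List.map_map,
      ih g, ih (g ∘ List.cons X)]
    rw [Finset.sum_range_succ' (fun k => ((n + 1).choose k : ℕ∞) * g (List.replicate k X)) (n + 1)]
    have h1 : ∑ k ∈ Finset.range (n + 1), (n.choose k : ℕ∞) * g (List.replicate k X) =
        (∑ k ∈ Finset.range (n + 1), (n.choose (k + 1) : ℕ∞) * g (List.replicate (k + 1) X)) +
          (n.choose 0 : ℕ∞) * g (List.replicate 0 X) := by
      rw [Finset.sum_range_succ' (fun k => (n.choose k : ℕ∞) * g (List.replicate k X)) n,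
        Finset.sum_range_succ
          (fun k => (n.choose (k + 1) : ℕ∞) * g (List.replicate (k + 1) X)) n,
        Nat.choose_succ_self]
      simp
    rw [h1, add_right_comm, ← Finset.sum_add_distrib]
    congr 1
    swap
    · rw [Nat.choose_zero_right, Nat.choose_zero_right]
    refine Finset.sum_congr rfl fun k _ => ?_
    rw [Nat.choose_succ_succ, Function.comp_apply]
    change _ * g (List.replicate (k + 1) X) + _ * g (List.replicate (k + 1) X) = _
    push_cast
    ring

variable {C : Type u} [Category.{v} C] [Preadditive C] [MonoidalCategory C]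
  [MonoidalPreadditive C] {Λ : Type t} [Field Λ] {M D : C ⥤ ModuleCat.{x} Λ} [M.Additive]
  [D.Additive] (r : M ⟶ D)

lemma kerL_zero_iff (L : List (Pointed C)) :
    kerL r L = 0 ↔ Function.Injective (r.app (prodL L)).hom := by
  rw [kerL, dimE_zero_iff, Submodule.subsingleton_iff_eq_bot, LinearMap.ker_eq_bot]

lemma cokerL_zero_iff (L : List (Pointed C)) :
    cokerL r L = 0 ↔ Function.Surjective (r.app (prodL L)).hom := by
  rw [cokerL, dimE_zero_iff, Submodule.Quotient.subsingleton_iff, LinearMap.range_eq_top]

lemma kerL_eq (L : List (Pointed C)) :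
    kerL r L = ((List.sublists' L).map (part (kerF r))).sum := dim_prod L (kerF r)

lemma cokerL_eq (L : List (Pointed C)) :
    cokerL r L = ((List.sublists' L).map (part (cokerF r))).sum := dim_prod L (cokerF r)

lemma part_zero {i : ℕ} (hdeg : ∀ L : List (Pointed C), i < L.length → D.map (redL L) = 0)
    {L : List (Pointed C)} (hL : i < L.length) : part (cokerF r) L = 0 := by
  have h1 : LinearMap.range ((cokerF r).map (redL L)).hom = ⊥ := by
    rw [LinearMap.range_eq_bot]
    apply LinearMap.ext
    intro a
    obtain ⟨a, rfl⟩ := Submodule.mkQ_surjective _ a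
    have h2 := quoS_map_mk (stab_range r) (redL L) a
    refine h2.trans ?_
    rw [hdeg L hL]
    rfl
  rw [part, h1, dimE_zero_iff]
  infer_instance

lemma sum_eq_zero' {l : List ℕ∞} (h : ∀ a ∈ l, a = 0) : l.sum = 0 := List.sum_eq_zero h

lemma le_sum {α : Type*} {l : List α} (g : α → ℕ∞) {a : α} (ha : a ∈ l) :
    g a ≤ (l.map g).sum := List.le_sum_of_mem (List.mem_map_of_mem ha)

/-- **Kernels and cokernels on products.** -/
theorem prod_law (i : ℕ)
    (hdeg : ∀ L : List (Pointed C), i < L.length → D.map (redL L) = 0) :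
    (∃ κ γ : List (Pointed C) → ℕ∞, ∀ L : List (Pointed C),
      kerL r L = ((List.sublists' L).map κ).sum ∧
      cokerL r L = ((List.sublists' L).map γ).sum ∧ (i < L.length → γ L = 0)) ∧
    (∀ L : List (Pointed C), (∀ L' : List (Pointed C), L'.Sublist L → L'.length ≤ i →
      Function.Surjective (r.app (prodL L')).hom) → Function.Surjective (r.app (prodL L)).hom) ∧
    ∀ X : Pointed C, Function.Bijective (r.app (prodL (powL X i))).hom →
      (∀ m n : ℕ, m + i + 1 ≤ n → kerL r (powL X n) < (n.choose (i + 1) : ℕ) →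
        Function.Bijective (r.app (prodL (powL X m))).hom) ∧
      ((∃ᶠ n : ℕ in atTop, kerL r (powL X n) < (n.choose (i + 1) : ℕ)) ↔
        ∀ n, Function.Bijective (r.app (prodL (powL X n))).hom) := by
  have hsur : ∀ L : List (Pointed C), (∀ L' : List (Pointed C), L'.Sublist L → L'.length ≤ i →
      Function.Surjective (r.app (prodL L')).hom) →
      Function.Surjective (r.app (prodL L)).hom := by
    intro L hL
    rw [← cokerL_zero_iff, cokerL_eq]
    refine sum_eq_zero' fun a ha => ?_
    obtain ⟨L', hL', rfl⟩ := List.mem_map.1 ha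
    rw [List.mem_sublists'] at hL'
    by_cases hlen : L'.length ≤ i
    · have h1 := (cokerL_zero_iff r L').2 (hL L' hL' hlen)
      rw [cokerL_eq] at h1
      have h2 := le_sum (part (cokerF r)) (List.mem_sublists'.2 (List.Sublist.refl L'))
      rw [h1] at h2
      exact le_antisymm h2 (zero_le)
    · exact part_zero r hdeg (not_le.1 hlen)
  refine ⟨⟨part (kerF r), part (cokerF r), fun L => ⟨kerL_eq r L, cokerL_eq r L,
    fun hL => part_zero r hdeg hL⟩⟩, hsur, ?_⟩
  intro X hX
  have hk : ∀ n, kerL r (powL X n) = ∑ k ∈ Finset.range (n + 1), (n.choose k : ℕ∞) *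
      part (kerF r) (powL X k) := fun n => by rw [kerL_eq, sum_replicate]
  have hc : ∀ n, cokerL r (powL X n) = ∑ k ∈ Finset.range (n + 1), (n.choose k : ℕ∞) *
      part (cokerF r) (powL X k) := fun n => by rw [cokerL_eq, sum_replicate]
  have hpos : ∀ {n k : ℕ}, k ≤ n → (n.choose k : ℕ∞) ≠ 0 := fun h => by
    have := Nat.choose_pos h
    exact_mod_cast this.ne'
  have hterm : ∀ {n k : ℕ} (g : ℕ → ℕ∞), k ≤ n → (n.choose k : ℕ∞) * g k ≤
      ∑ k ∈ Finset.range (n + 1), (n.choose k : ℕ∞) * g k := fun {n k} g h =>
    Finset.single_le_sum (f := fun k => (n.choose k : ℕ∞) * g k) (fun _ _ => zero_le)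
      (Finset.mem_range.2 (by omega))
  have hk0 : ∀ k ≤ i, part (kerF r) (powL X k) = 0 := by
    intro k hki
    have h1 := (kerL_zero_iff r (powL X i)).2 hX.1
    rw [hk] at h1
    have h2 := hterm (fun k => part (kerF r) (powL X k)) hki
    rw [h1] at h2
    exact (mul_eq_zero.1 (le_antisymm h2 (zero_le))).resolve_left (hpos hki)
  have hc0 : ∀ k ≤ i, part (cokerF r) (powL X k) = 0 := by
    intro k hki
    have h1 := (cokerL_zero_iff r (powL X i)).2 hX.2
    rw [hc] at h1
    have h2 := hterm (fun k => part (cokerF r) (powL X k)) hki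
    rw [h1] at h2
    exact (mul_eq_zero.1 (le_antisymm h2 (zero_le))).resolve_left (hpos hki)
  have hs : ∀ m, Function.Surjective (r.app (prodL (powL X m))).hom := by
    intro m
    rw [← cokerL_zero_iff, hc]
    refine Finset.sum_eq_zero fun k _ => ?_
    by_cases hki : k ≤ i
    · rw [hc0 k hki, mul_zero]
    · rw [part_zero r hdeg (by rw [List.length_replicate]; omega), mul_zero]
  have hone : ∀ m n : ℕ, m + i + 1 ≤ n → kerL r (powL X n) < (n.choose (i + 1) : ℕ) →
      Function.Bijective (r.app (prodL (powL X m))).hom := by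
    intro m n hmn hlt
    refine ⟨?_, hs m⟩
    rw [← kerL_zero_iff, hk]
    refine Finset.sum_eq_zero fun k hkm => ?_
    rw [Finset.mem_range] at hkm
    by_cases hki : k ≤ i
    · rw [hk0 k hki, mul_zero]
    · have h1 : part (kerF r) (powL X k) = 0 := by
        by_contra hne
        have h2 : (1 : ℕ∞) ≤ part (kerF r) (powL X k) :=
          Order.one_le_iff_pos.2 (pos_iff_ne_zero.2 hne)
        have h3 := hterm (n := n) (k := k) (fun k => part (kerF r) (powL X k)) (by omega)
        rw [← hk] at h3
        have h4 : (n.choose (i + 1) : ℕ∞) ≤ (n.choose k : ℕ∞) := by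
          exact_mod_cast choose_le (by omega) (by omega)
        have h5 : (n.choose k : ℕ∞) ≤ (n.choose k : ℕ∞) * part (kerF r) (powL X k) := by
          calc (n.choose k : ℕ∞) = (n.choose k : ℕ∞) * 1 := (mul_one _).symm
            _ ≤ _ := by gcongr
        exact absurd hlt (not_lt.2 (h4.trans (h5.trans h3)))
      rw [h1, mul_zero]
  refine ⟨hone, ?_, ?_⟩
  · intro hf m
    obtain ⟨n, hn, hlt⟩ := Filter.frequently_atTop.1 hf (m + i + 1)
    exact hone m n hn hlt
  · intro hb
    refine Filter.Eventually.frequently ?_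
    filter_upwards [eventually_ge_atTop (i + 1)] with n hn
    rw [(kerL_zero_iff r (powL X n)).2 (hb n).1]
    have := Nat.choose_pos hn
    exact_mod_cast this

end Pool.Agent.U724.BL
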