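import Pool.Agent.U724.BL.Defs
import Pool.Agent.U724.NT.Nat

/-!
# The values of an additive functor on products of pointed objects
-/

set_option autoImplicit false
set_option linter.unusedSectionVars false

open CategoryTheory MonoidalCategory Module
open Pool.Agent.N64.AF Pool.Agent.U724.NT

namespace Pool.Agent.U724.BL

universe v u t x

lemma dimE_congr {Λ : Type t} [Field Λ] {V W : Type x} [AddCommGroup V] [Module Λ V]
    [AddCommGroup W] [Module Λ W] (e : V ≃ₗ[Λ] W) : dimE Λ V = dimE Λ W := by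
  rw [dimE, dimE, e.rank_eq]

lemma dimE_range_add_ker {Λ : Type t} [Field Λ] {V W : Type x} [AddCommGroup V] [Module Λ V]
    [AddCommGroup W] [Module Λ W] (f : V →ₗ[Λ] W) :
    dimE Λ (LinearMap.range f) + dimE Λ (LinearMap.ker f) = dimE Λ V := by
  rw [dimE, dimE, dimE, ← map_add, LinearMap.rank_range_add_rank_ker]

variable {C : Type u} [Category.{v} C] [Preadditive C] [MonoidalCategory C]
  [MonoidalPreadditive C] {Λ : Type t} [Field Λ]

lemma Pointed.red_aug (X : Pointed C) : X.red ≫ X.aug = 0 := by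
  rw [Pointed.red, Preadditive.sub_comp, Category.assoc, X.pt_aug, Category.comp_id,
    Category.id_comp, sub_self]

lemma Pointed.red_red (X : Pointed C) : X.red ≫ X.red = X.red := by
  conv_lhs =>
    rhs
    rw [Pointed.red]
  rw [Preadditive.comp_sub, ← Category.assoc, X.red_aug, Limits.zero_comp, sub_zero,
    Category.comp_id]

section Cut

variable (F : C ⥤ ModuleCat.{x} Λ) {X : C} (e : X ⟶ X)

lemma comp_ap' {Y Z W : C} (f : Y ⟶ Z) (g : Z ⟶ W) (a : F.obj Y) :
    (F.map (f ≫ g)).hom a = (F.map g).hom ((F.map f).hom a) := by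
  rw [F.map_comp]
  rfl

lemma cut_stab : IsStab (tensorRight X ⋙ F)
    (fun Z => LinearMap.range (F.map (Z ◁ e)).hom) := by
  rintro Y Z f _ ⟨a, rfl⟩
  refine ⟨(F.map (f ▷ X)).hom a, ?_⟩
  change (F.map (Z ◁ e)).hom ((F.map (f ▷ X)).hom a) =
    (F.map (f ▷ X)).hom ((F.map (Y ◁ e)).hom a)
  rw [← comp_ap', ← comp_ap', whisker_exchange]

/-- The functor `Z ↦ F (Z ⊗ (X, e))`. -/
abbrev cut : C ⥤ ModuleCat.{x} Λ := sub (tensorRight X ⋙ F) _ (cut_stab F e)

end Cut

/-- The dimension of the part of `F (X_1 ⊗ ⋯ ⊗ X_k)` cut out by the projectors. -/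
noncomputable def part (F : C ⥤ ModuleCat.{x} Λ) (L : List (Pointed C)) : ℕ∞ :=
  dimE Λ (LinearMap.range (F.map (redL L)).hom)

lemma part_cut (F : C ⥤ ModuleCat.{x} Λ) (X : Pointed C) (L : List (Pointed C)) :
    part (cut F X.red) L = part F (X :: L) := by
  unfold part
  have h1 : (LinearMap.range ((cut F X.red).map (redL L)).hom).map
      (LinearMap.range (F.map (prodL L ◁ X.red)).hom).subtype =
      LinearMap.range (F.map (redL (X :: L))).hom := by
    apply le_antisymm
    · rintro _ ⟨_, ⟨⟨_, a, rfl⟩, rfl⟩, rfl⟩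
      refine ⟨a, ?_⟩
      change (F.map (redL L ⊗ₘ X.red)).hom a =
        (F.map (redL L ▷ X.obj)).hom ((F.map (prodL L ◁ X.red)).hom a)
      rw [← comp_ap', tensorHom_def']
    · rintro _ ⟨a, rfl⟩
      refine ⟨_, ⟨⟨_, a, rfl⟩, rfl⟩, ?_⟩
      change (F.map (redL L ▷ X.obj)).hom ((F.map (prodL L ◁ X.red)).hom a) =
        (F.map (redL L ⊗ₘ X.red)).hom a
      rw [← comp_ap', tensorHom_def']
  rw [← h1]
  exact dimE_congr (Submodule.equivSubtypeMap _ _)

/-- The decomposition for one factor. -/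
lemma dim_succ (F : C ⥤ ModuleCat.{x} Λ) [F.Additive] (X : Pointed C) (Z : C) :
    dimE Λ (F.obj (Z ⊗ X.obj)) = dimE Λ (F.obj Z) + dimE Λ ((cut F X.red).obj Z) := by
  set φ : F.obj (Z ⊗ X.obj) →ₗ[Λ] F.obj Z := (F.map ((Z ◁ X.aug) ≫ (ρ_ Z).hom)).hom with hφ
  have h1 : LinearMap.ker φ = LinearMap.range (F.map (Z ◁ X.red)).hom := by
    apply le_antisymm
    · intro a ha
      refine ⟨a, ?_⟩
      have h2 : (F.map ((Z ◁ X.aug) ≫ (ρ_ Z).hom)).hom a = 0 := ha
      have h3 : (F.map (Z ◁ X.aug)).hom a = 0 := by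
        have h4 : Z ◁ X.aug = ((Z ◁ X.aug) ≫ (ρ_ Z).hom) ≫ (ρ_ Z).inv := by
          rw [Category.assoc, Iso.hom_inv_id, Category.comp_id]
        rw [h4, comp_ap', h2, map_zero]
      have h5 : Z ◁ X.red = 𝟙 _ - (Z ◁ X.aug) ≫ (Z ◁ X.pt) := by
        rw [Pointed.red, sub_eq_add_neg, MonoidalPreadditive.whiskerLeft_add,
          MonoidalCategory.whiskerLeft_id, ← MonoidalCategory.whiskerLeft_comp, sub_eq_add_neg]
        congr 1
        rw [eq_neg_iff_add_eq_zero, ← MonoidalPreadditive.whiskerLeft_add, neg_add_cancel,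
          MonoidalPreadditive.whiskerLeft_zero]
      rw [h5, F.map_sub]
      change (F.map (𝟙 _)).hom a - (F.map ((Z ◁ X.aug) ≫ (Z ◁ X.pt))).hom a = a
      rw [comp_ap', h3, map_zero, sub_zero, F.map_id]
      rfl
    · rintro _ ⟨a, rfl⟩
      change (F.map ((Z ◁ X.aug) ≫ (ρ_ Z).hom)).hom ((F.map (Z ◁ X.red)).hom a) = 0
      rw [← comp_ap', ← Category.assoc, ← MonoidalCategory.whiskerLeft_comp, X.red_aug,
        MonoidalPreadditive.whiskerLeft_zero, Limits.zero_comp, F.map_zero]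
      rfl
  have h2 : LinearMap.range φ = ⊤ := by
    rw [LinearMap.range_eq_top]
    intro a
    refine ⟨(F.map ((ρ_ Z).inv ≫ (Z ◁ X.pt))).hom a, ?_⟩
    change (F.map ((Z ◁ X.aug) ≫ (ρ_ Z).hom)).hom
      ((F.map ((ρ_ Z).inv ≫ (Z ◁ X.pt))).hom a) = a
    rw [← comp_ap']
    have h3 : ((ρ_ Z).inv ≫ (Z ◁ X.pt)) ≫ (Z ◁ X.aug) ≫ (ρ_ Z).hom = 𝟙 Z := by
      rw [Category.assoc, ← Category.assoc (Z ◁ X.pt), ← MonoidalCategory.whiskerLeft_comp,
        X.pt_aug, MonoidalCategory.whiskerLeft_id, Category.id_comp, Iso.inv_hom_id]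
    rw [h3, F.map_id]
    rfl
  rw [← dimE_range_add_ker φ, h2, h1]
  congr 1
  exact dimE_congr Submodule.topEquiv

/-- **The values on products.** -/
theorem dim_prod (L : List (Pointed C)) : ∀ (F : C ⥤ ModuleCat.{x} Λ) [F.Additive],
    dimE Λ (F.obj (prodL L)) = ((List.sublists' L).map (part F)).sum := by
  induction L with
  | nil =>
    intro F _
    rw [List.sublists'_nil, List.map_singleton, List.sum_singleton]
    unfold part
    have h1 : LinearMap.range (F.map (redL ([] : List (Pointed C)))).hom = ⊤ := by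
      change LinearMap.range (F.map (𝟙 (𝟙_ C))).hom = ⊤
      rw [F.map_id]
      exact LinearMap.range_id
    rw [h1]
    exact (dimE_congr Submodule.topEquiv).symm
  | cons X L ih =>
    intro F _
    rw [List.sublists'_cons, List.map_append, List.sum_append, List.map_map, ← ih F]
    have h1 := ih (cut F X.red)
    have h2 : (fun L' => part F (X :: L')) = part (cut F X.red) :=
      funext fun L' => (part_cut F X L').symm
    change dimE Λ (F.obj (prodL L ⊗ X.obj)) = _ +
      (List.map (fun L' => part F (X :: L')) (List.sublists' L)).sum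
    rw [h2, ← h1]
    exact dim_succ F X (prodL L)

end Pool.Agent.U724.BL
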